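import Pool.Agent.V8H36.IS.Newf

/-!
# Isolated zeros of `L(E ⊗ χ, s)` on the critical line

`E : y² = x³ + a x + b` is any elliptic curve over `ℚ`, `N` is its conductor and `f ∈ S_2(Γ₀(N))` is
the newform attached to `E` by the modularity theorem.  `χ` runs over all primitive Dirichlet
characters whose conductor `q` is prime to `N` and lies in a window `X < q ≤ Y`.  Unconditionally,
for all `0 ≤ c ≤ 1.3` at least the proportion `1 - 0.3275 / (1 - c²/6)²` (67.25% at `c = 0`, 52.8% at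
`c = 1`) of the nontrivial zeros of the functions `L(E ⊗ χ, s)` with ordinate in `(T, 2T]` are simple,
lie on the critical line and have no other zero, on or off the line, in the box of half width
`c / log X` and half height `1.25 / log X` around them; and at least 34.5% of the zeros are simple, lie
on the line and their ordinates differ by more than `1.3 / log X` (0.41 times the mean spacing) from
the ordinates of all the other zeros of the same `L`-function.

Method: the trace inequality of the starting modules (`H385R2.TraceW`, `W388.TW`) with block test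
matrices, so that every simple critical zero which is close to another zero gives an additional
contribution (the device of the starting modules `H344R2` for the zeta function), with the smooth
weights and in the family.
-/

open Complex UpperHalfPlane MatrixGroups CongruenceSubgroup

namespace Pool.Agent.Results.MP_553913_nt.IsolatedZerosTwists

/-- The coefficient `a_p` of `E : y² = x³ + a x + b` at a prime `p ∤ 2 (4a³ + 27b²)`: `p` minus the
number of pairs `(x, y)` modulo `p` with `y² ≡ x³ + a x + b (mod p)`. -/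
noncomputable def ap (a b : ℤ) (p : ℕ) : ℤ :=
  (p : ℤ) - (((Finset.range p ×ˢ Finset.range p).filter
    (fun xy : ℕ × ℕ => (p : ℤ) ∣ (xy.2 : ℤ) ^ 2 -
      ((xy.1 : ℤ) ^ 3 + a * (xy.1 : ℤ) + b))).card : ℤ)

/-- The `n`-th Fourier coefficient of `f`. -/
noncomputable def coef {N : ℕ} (f : CuspForm (Gamma0 N : Subgroup (GL (Fin 2) ℝ)) 2) (n : ℕ) : ℂ :=
  (qExpansion 1 f).coeff n

/-- `f ∈ S_2(Γ₀(N))` is the newform of the elliptic curve `E : y² = x³ + a x + b`: the Fourier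
coefficients `c(n)` of `f` are real with `c(1) = 1`, they satisfy the Hecke relations
`c(mn) = c(m) c(n)` for coprime `m`, `n` and `c(p^(j+2)) = c(p) c(p^(j+1)) - p c(p^j)` (without the
last term if `p ∣ N`), `f` is an eigenfunction of the Fricke involution:
`f(-1/(Nτ)) = -w N τ² f(τ)` with `w = ±1`, and `c(p) = a_p(E)` for all primes
`p ∤ 2 (4a³ + 27b²)`. -/
structure IsFormOf (a b : ℤ) (N : ℕ) (f : CuspForm (Gamma0 N : Subgroup (GL (Fin 2) ℝ)) 2) :
    Prop where
  one : coef f 1 = 1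
  real : ∀ n, (coef f n).im = 0
  mul : ∀ m n : ℕ, Nat.Coprime m n → coef f (m * n) = coef f m * coef f n
  pow : ∀ p j : ℕ, p.Prime → coef f (p ^ (j + 2)) = coef f p * coef f (p ^ (j + 1)) -
      (if p ∣ N then 0 else (p : ℂ) * coef f (p ^ j))
  fricke : ∃ w : ℝ, (w = 1 ∨ w = -1) ∧ ∀ τ τ' : ℍ, (τ' : ℂ) * ((N : ℂ) * (τ : ℂ)) = -1 →
    f τ' = -(w : ℂ) * (N : ℂ) * (τ : ℂ) ^ 2 * f τ
  points : ∀ p : ℕ, p.Prime → ¬ (p : ℤ) ∣ 2 * (4 * a ^ 3 + 27 * b ^ 2) → coef f p = (ap a b p : ℂ)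

/-- The Euler factor of `L(E ⊗ χ, s)` at the prime `p`:
`(1 - χ(p) c(p) p^(-s) + χ(p)² p^(1-2s))⁻¹` for `p ∤ N`, `(1 - χ(p) c(p) p^(-s))⁻¹` for `p ∣ N`. -/
noncomputable def factor {N : ℕ} (f : CuspForm (Gamma0 N : Subgroup (GL (Fin 2) ℝ)) 2) (q : ℕ)
    (χ : DirichletCharacter ℂ q) (s : ℂ) (p : ℕ) : ℂ :=
  (1 - χ (p : ZMod q) * coef f p * (p : ℂ) ^ (-s) +
    (if p ∣ N then 0 else χ (p : ZMod q) ^ 2 * (p : ℂ) ^ (1 - 2 * s)))⁻¹

/-- The nontrivial zeros of `F` with ordinate in `(T, 2T]`: the zeros with `1/2 < Re s < 3/2` and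
`T < Im s ≤ 2T`. -/
def zeros (F : ℂ → ℂ) (T : ℝ) : Set ℂ :=
  {s : ℂ | 1 / 2 < s.re ∧ s.re < 3 / 2 ∧ T < s.im ∧ s.im ≤ 2 * T ∧ F s = 0}

/-- The number of these zeros, counted with multiplicity. -/
noncomputable def N₀ (F : ℂ → ℂ) (T : ℝ) : ℕ := ∑ᶠ s ∈ zeros F T, analyticOrderNatAt F s

/-- The zeros of `F` with ordinate in `(T, 2T]` that are simple, lie on the critical line `Re s = 1`,
and such that there is no other zero `s'` of `F` in the critical strip (on or off the line) with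
`|Im s' - Im s| ≤ ρ` and `|Re s' - 1| ≤ h`. -/
def isolBox (F : ℂ → ℂ) (T ρ h : ℝ) : Set ℂ :=
  {s : ℂ | s ∈ zeros F T ∧ s.re = 1 ∧ analyticOrderNatAt F s = 1 ∧
    ∀ s' : ℂ, 1 / 2 < s'.re → s'.re < 3 / 2 → F s' = 0 → s' ≠ s →
      |s'.im - s.im| ≤ ρ → h < |s'.re - 1|}

/-- The zeros of `F` with ordinate in `(T, 2T]` that are simple, lie on the critical line `Re s = 1`,
and whose ordinate differs by more than `ρ` from the ordinate of every other zero of `F` in the
critical strip (on or off the line). -/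
def isolAll (F : ℂ → ℂ) (T ρ : ℝ) : Set ℂ :=
  {s : ℂ | s ∈ zeros F T ∧ s.re = 1 ∧ analyticOrderNatAt F s = 1 ∧
    ∀ s' : ℂ, 1 / 2 < s'.re → s'.re < 3 / 2 → F s' = 0 → s' ≠ s → ρ < |s'.im - s.im|}

/-- The sum of `g q χ / q²` over all primitive Dirichlet characters `χ` of conductor `q` prime to
`N`, `X < q ≤ Y`. -/
noncomputable def fam (N X Y : ℕ) (g : (q : ℕ) → DirichletCharacter ℂ q → ℕ) : ℝ :=
  ∑ q ∈ (Finset.Ioc X Y).filter (fun q => Nat.Coprime q N), (1 / (q : ℝ) ^ 2) *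
    ∑ᶠ χ : {χ : DirichletCharacter ℂ q // χ.IsPrimitive}, (g q χ : ℝ)

/-! ### Translation from the analytic normalisation -/

theorem order_shift (L : ℂ → ℂ) (s : ℂ) :
    analyticOrderNatAt (fun z => L (z - 1 / 2)) (s + 1 / 2) = analyticOrderNatAt L s := by
  have hg : AnalyticAt ℂ (fun z : ℂ => z - 1 / 2) (s + 1 / 2) := by fun_prop
  have hd : deriv (fun z : ℂ => z - 1 / 2) (s + 1 / 2) ≠ 0 := by
    simp
  have h := analyticOrderAt_comp_of_deriv_ne_zero (f := L) hg hd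
  unfold analyticOrderNatAt
  have h2 : (fun z : ℂ => L (z - 1 / 2)) = L ∘ (fun z : ℂ => z - 1 / 2) := rfl
  rw [h2, h]
  norm_num

theorem mem_shift (L : ℂ → ℂ) (T : ℝ) (s : ℂ) :
    s + 1 / 2 ∈ zeros (fun z => L (z - 1 / 2)) T ↔ s ∈ H370.zset L T (2 * T) := by
  have h1 : (s + 1 / 2 : ℂ).re = s.re + 1 / 2 := by simp
  have h2 : (s + 1 / 2 : ℂ).im = s.im := by simp
  have h3 : s + 1 / 2 - 1 / 2 = s := by ring
  constructor
  · rintro ⟨a, b, c, d, e⟩
    rw [h1] at a b
    rw [h2] at c d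
    simp only [h3] at e
    exact ⟨by linarith, by linarith, c, d, e⟩
  · rintro ⟨a, b, c, d, e⟩
    refine ⟨by rw [h1]; linarith, by rw [h1]; linarith, by rw [h2]; exact c,
      by rw [h2]; exact d, ?_⟩
    simp only [h3]
    exact e

theorem zeros_shift (L : ℂ → ℂ) (T : ℝ) :
    zeros (fun z => L (z - 1 / 2)) T = (fun s : ℂ => s + 1 / 2) '' H370.zset L T (2 * T) := by
  ext s
  constructor
  · intro hs
    refine ⟨s - 1 / 2, ?_, by ring⟩
    rw [← mem_shift]
    convert hs using 1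
    ring
  · rintro ⟨t, ht, rfl⟩
    exact (mem_shift L T t).mpr ht

theorem inj_shift : Function.Injective (fun s : ℂ => s + 1 / 2) := fun a b h => by
  simpa using h

theorem N_shift (L : ℂ → ℂ) (T : ℝ) :
    N₀ (fun z => L (z - 1 / 2)) T = H370.NN L T (2 * T) := by
  unfold N₀ H370.NN
  rw [zeros_shift, finsum_mem_image (inj_shift.injOn)]
  refine finsum_congr fun s => finsum_congr fun _ => ?_
  exact order_shift L s

theorem box_shift (L : ℂ → ℂ) (T ρ h : ℝ) :
    isolBox (fun z => L (z - 1 / 2)) T ρ h = (fun s : ℂ => s + 1 / 2) '' V8H36.IS.isoB L T ρ h := by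
  ext s
  constructor
  · rintro ⟨h1, h2, h3, h4⟩
    refine ⟨s - 1 / 2, ⟨?_, ?_, ?_, ?_⟩, by ring⟩
    · rw [← mem_shift]
      convert h1 using 1
      ring
    · simp [h2]; norm_num
    · unfold H370.mult
      rw [← order_shift]
      convert h3 using 2
      ring
    · intro s' b1 b2 b3 b4 b5
      have e1 : (s' + 1 / 2 : ℂ).re = s'.re + 1 / 2 := by simp
      have e2 : (s' + 1 / 2 : ℂ).im = s'.im := by simp
      have e3 : (s - 1 / 2 : ℂ).im = s.im := by simp
      rw [e3] at b5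
      have h5 := h4 (s' + 1 / 2) (by rw [e1]; linarith) (by rw [e1]; linarith)
        (by simp only [add_sub_cancel_right]; exact b3) (fun hh => b4 (by rw [← hh]; ring))
        (by rw [e2]; exact b5)
      rw [e1] at h5
      have e4 : s'.re + 1 / 2 - 1 = s'.re - 1 / 2 := by ring
      rw [e4] at h5
      exact h5
  · rintro ⟨t, ⟨h1, h2, h3, h4⟩, rfl⟩
    refine ⟨(mem_shift L T t).mpr h1, ?_, ?_, ?_⟩
    · simp [h2]; norm_num
    · rw [order_shift]; exact h3
    · intro s' b1 b2 b3 b4 b5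
      have e1 : (s' - 1 / 2 : ℂ).re = s'.re - 1 / 2 := by simp
      have e2 : (s' - 1 / 2 : ℂ).im = s'.im := by simp
      have e3 : (t + 1 / 2 : ℂ).im = t.im := by simp
      simp only [e3] at b5
      have h5 := h4 (s' - 1 / 2) (by rw [e1]; linarith) (by rw [e1]; linarith)
        b3 (fun hh => b4 (by rw [← hh]; ring)) (by rw [e2]; exact b5)
      rw [e1] at h5
      have e4 : s'.re - 1 / 2 - 1 / 2 = s'.re - 1 := by ring
      rw [e4] at h5
      exact h5

theorem all_shift (L : ℂ → ℂ) (T ρ : ℝ) :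
    isolAll (fun z => L (z - 1 / 2)) T ρ = (fun s : ℂ => s + 1 / 2) '' V8H36.IS.isoT L T ρ := by
  ext s
  constructor
  · rintro ⟨h1, h2, h3, h4⟩
    refine ⟨s - 1 / 2, ⟨?_, ?_, ?_, ?_⟩, by ring⟩
    · rw [← mem_shift]
      convert h1 using 1
      ring
    · simp [h2]; norm_num
    · unfold H370.mult
      rw [← order_shift]
      convert h3 using 2
      ring
    · intro s' b1 b2 b3 b4
      have e1 : (s' + 1 / 2 : ℂ).re = s'.re + 1 / 2 := by simp
      have e2 : (s' + 1 / 2 : ℂ).im = s'.im := by simp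
      have e3 : (s - 1 / 2 : ℂ).im = s.im := by simp
      rw [e3]
      have h5 := h4 (s' + 1 / 2) (by rw [e1]; linarith) (by rw [e1]; linarith)
        (by simp only [add_sub_cancel_right]; exact b3) (fun hh => b4 (by rw [← hh]; ring))
      rw [e2] at h5
      exact h5
  · rintro ⟨t, ⟨h1, h2, h3, h4⟩, rfl⟩
    refine ⟨(mem_shift L T t).mpr h1, ?_, ?_, ?_⟩
    · simp [h2]; norm_num
    · rw [order_shift]; exact h3
    · intro s' b1 b2 b3 b4
      have e1 : (s' - 1 / 2 : ℂ).re = s'.re - 1 / 2 := by simp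
      have e2 : (s' - 1 / 2 : ℂ).im = s'.im := by simp
      have e3 : (t + 1 / 2 : ℂ).im = t.im := by simp
      simp only [e3]
      have h5 := h4 (s' - 1 / 2) (by rw [e1]; linarith) (by rw [e1]; linarith)
        b3 (fun hh => b4 (by rw [← hh]; ring))
      rw [e2] at h5
      exact h5

theorem box_card (L : ℂ → ℂ) (T ρ h : ℝ) :
    (isolBox (fun z => L (z - 1 / 2)) T ρ h).ncard = (V8H36.IS.isoB L T ρ h).ncard := by
  rw [box_shift, Set.ncard_image_of_injective _ inj_shift]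

theorem all_card (L : ℂ → ℂ) (T ρ : ℝ) :
    (isolAll (fun z => L (z - 1 / 2)) T ρ).ncard = (V8H36.IS.isoT L T ρ).ncard := by
  rw [all_shift, Set.ncard_image_of_injective _ inj_shift]

theorem lamf_eq {N : ℕ} (f : CuspForm (Gamma0 N : Subgroup (GL (Fin 2) ℝ)) 2)
    (hr : ∀ n, (coef f n).im = 0) (p : ℕ) (hp : p.Prime) (s : ℂ) :
    (W388.lamf f p : ℂ) * (p : ℂ) ^ (-(s - 1 / 2)) = coef f p * (p : ℂ) ^ (-s) := by
  have hp0 : (0 : ℝ) < p := by exact_mod_cast hp.pos
  have hpc : (p : ℂ) ≠ 0 := by exact_mod_cast hp.ne_zero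
  have hc : coef f p = ((coef f p).re : ℂ) := by
    apply Complex.ext
    · simp
    · simp [hr p]
  unfold W388.lamf
  rw [hc]
  unfold coef
  rw [show -(s - 1 / 2) = -s + (1 / 2 : ℂ) by ring, Complex.cpow_add _ _ hpc]
  push_cast
  rw [Complex.ofReal_cpow hp0.le]
  have e : ((((2 : ℝ) - 1) / 2 : ℝ) : ℂ) = (1 / 2 : ℂ) := by push_cast; norm_num
  rw [e]
  have hne : (p : ℂ) ^ (1 / 2 : ℂ) ≠ 0 := by
    rw [Ne, Complex.cpow_eq_zero_iff]
    exact fun h => hpc h.1
  rw [Complex.ofReal_natCast]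
  field_simp

theorem factor_shift {N : ℕ} (f : CuspForm (Gamma0 N : Subgroup (GL (Fin 2) ℝ)) 2)
    (hr : ∀ n, (coef f n).im = 0) (q : ℕ)
    (χ : DirichletCharacter ℂ q) (s : ℂ) (p : ℕ) (hp : p.Prime) :
    factor f q χ s p = (1 - χ (p : ZMod q) * (W388.lamf f p : ℂ) * (p : ℂ) ^ (-(s - 1 / 2)) +
      (if p ∣ N then 0 else χ (p : ZMod q) ^ 2 * (p : ℂ) ^ (-2 * (s - 1 / 2))))⁻¹ := by
  unfold factor
  rw [mul_assoc (χ (p : ZMod q)) (W388.lamf f p : ℂ), lamf_eq f hr p hp s, ← mul_assoc,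
    show (-2 * (s - 1 / 2) : ℂ) = 1 - 2 * s by ring]

/-- **Main theorem.** Let `E : y² = x³ + a x + b` be an elliptic curve over `ℚ` and let
`f ∈ S_2(Γ₀(N))` be its newform.  For every primitive Dirichlet character `χ` of conductor `q` prime
to `N` there is an entire function `L q χ` which for `Re s > 3/2` is the Euler product of
`L(E ⊗ χ, s)`; and there are `K`, `η > 0`, `X₀` such that in every window `X < q ≤ Y` with
`K X ≤ Y ≤ X ^ (1 + η)`, `X ≥ X₀`, and for every `T` with `(log X)² ≤ T ≤ X ^ η` (weights `1/q²`, zeros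
with `1/2 < Re s < 3/2`, `T < Im s ≤ 2T`, counted with multiplicity):

* for all `0 ≤ c ≤ 1.3` at least the proportion `1 - 0.3275 / (1 - c²/6)²` of the zeros are simple, lie
  on the line `Re s = 1` and have no other zero `s'` with `|Im s' - Im s| ≤ c / log X`,
  `|Re s' - 1| ≤ 1.25 / log X`;
* at least 34.5% of the zeros are simple, lie on the line `Re s = 1` and satisfy
  `|Im s' - Im s| > 1.3 / log X` for every other zero `s'`. -/
theorem result (a b : ℤ) (_hE : 4 * a ^ 3 + 27 * b ^ 2 ≠ 0) (N : ℕ) [NeZero N]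
    (f : CuspForm (Gamma0 N : Subgroup (GL (Fin 2) ℝ)) 2) (hf : IsFormOf a b N f) :
    ∃ L : (q : ℕ) → DirichletCharacter ℂ q → ℂ → ℂ,
      (∀ (q : ℕ) (χ : DirichletCharacter ℂ q), 1 ≤ q → Nat.Coprime q N → χ.IsPrimitive →
        Differentiable ℂ (L q χ) ∧ ∀ s : ℂ, 3 / 2 < s.re →
          HasProd (fun p : Nat.Primes => factor f q χ s p) (L q χ s)) ∧
      ∃ K η X0 : ℝ, 1 ≤ K ∧ 0 < η ∧ 1 ≤ X0 ∧
        ∀ (X Y : ℕ) (T : ℝ), X0 ≤ X → K * X ≤ Y → (Y : ℝ) ≤ (X : ℝ) ^ (1 + η) →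
        (Real.log X) ^ 2 ≤ T → T ≤ (X : ℝ) ^ η →
        (∀ c : ℝ, 0 ≤ c → c ≤ 1.3 →
          (1 - 0.3275 / (1 - c ^ 2 / 6) ^ 2) * fam N X Y (fun q χ => N₀ (L q χ) T) ≤
            fam N X Y (fun q χ => (isolBox (L q χ) T (c / Real.log X) (1.25 / Real.log X)).ncard)) ∧
        0.345 * fam N X Y (fun q χ => N₀ (L q χ) T) ≤
          fam N X Y (fun q χ => (isolAll (L q χ) T (1.3 / Real.log X)).ncard) := by
  obtain ⟨w, hw, hfr⟩ := hf.fricke
  have hN0 : (0 : ℝ) ≤ (N : ℝ) := Nat.cast_nonneg N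
  have hsq : ((Real.sqrt N : ℝ) : ℂ) ^ 2 = (N : ℂ) := by
    have h1 : (Real.sqrt N) ^ 2 = (N : ℝ) := Real.sq_sqrt hN0
    exact_mod_cast congrArg (fun x : ℝ => (x : ℂ)) h1
  have hf' : W388.IsNewf N 2 f w := by
    refine ⟨hf.one, hf.real, hf.mul, ?_, hw, ?_⟩
    · intro p j hp
      have h1 := hf.pow p j hp
      unfold coef at h1
      rw [h1]
      norm_num
    · intro τ τ' h
      rw [hfr τ τ' h]
      congr 1
      have hI : Complex.I ^ 2 = -1 := Complex.I_sq
      have : (((Real.sqrt N : ℝ) : ℂ) * (τ : ℂ) / Complex.I) ^ (2 : ℤ) = -((N : ℂ) * (τ : ℂ) ^ 2) := by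
        rw [zpow_ofNat, div_pow, mul_pow, hsq, hI]
        ring
      rw [this]
      ring
  obtain ⟨L, hL, K, η, X0, hK, hη, hX0, h⟩ := V8H36.IS.newf_iso (by norm_num) hf'
  refine ⟨fun q χ s => L q χ (s - 1 / 2), ?_, K, η, X0, hK, hη, hX0, ?_⟩
  · intro q χ hq hqM hχ
    obtain ⟨h1, h2⟩ := hL q χ hq hqM hχ
    refine ⟨h1.comp (by fun_prop), fun s hs => ?_⟩
    have h3 := h2 (s - 1 / 2) (by
      have : (s - 1 / 2 : ℂ).re = s.re - 1 / 2 := by simp
      rw [this]; linarith)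
    refine (congrArg (fun g => HasProd g (L q χ (s - 1 / 2))) (funext fun p => ?_)).mpr h3
    exact factor_shift f hf.real q χ s p p.2
  · intro X Y T a1 a2 a3 a4 a5
    obtain ⟨b1, b2⟩ := h X Y T a1 a2 a3 a4 a5
    have e1 : (5 / 4 : ℝ) = 1.25 := by norm_num
    have e2 : (13 / 10 : ℝ) = 1.3 := by norm_num
    rw [e1, e2] at b1
    rw [e2] at b2
    refine ⟨fun c hc0 hc1 => ?_, ?_⟩
    · simp only [N_shift, box_card]
      exact b1 c hc0 hc1
    · simp only [N_shift, all_card]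
      exact b2

end Pool.Agent.Results.MP_553913_nt.IsolatedZerosTwists
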