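import Pool.Agent.V8H24.ZS.Short
import Pool.Agent.N880.HE.Num

/-!
# Zeros of the twists of an elliptic curve L-function in short intervals

`E : y² = x³ + a x + b` is any elliptic curve over `ℚ`, `N` is its conductor and `f ∈ S_2(Γ₀(N))` is
the newform attached to `E` by the modularity theorem (Wiles, Taylor-Wiles,
Breuil-Conrad-Diamond-Taylor).  `χ` runs over all primitive Dirichlet characters whose conductor `q`
is prime to `N` and lies in a window `X < q ≤ Y`.  The starting modules of this page treat the zeros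
of the functions `L(E ⊗ χ, s)` with ordinates in the dyadic windows `(T, 2T]`.  Here the ordinates lie
in the short intervals `(T, T + H]`, where `T ≤ X ^ τ` for an arbitrary number `τ` and `H` may be as
small as `4 (1 + τ)² (log X)²`, whatever the size of `T`: if `(X T) ^ (2 h) ≤ X² H`, then the
proportion of the zeros in `(T, T + H]` which are simple and lie on the critical line `Re s = 1` is at
least `2 - c(h) - ε`, where `c(h) = h/2 + cot(h/√2)/√2` is the function of Montgomery and Taylor.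

The proof: the function `L(E ⊗ χ, s + i (T - H))` has the zeros in question in the window `(H, 2H]`.
Its explicit formula is derived from that of `L(E ⊗ χ, s)` on `(T, 2T]` (module
`Pool.Agent.V8H24.ZS.Comp`); the trace inequality of the starting modules is proved again for such a
system of zeros, whose conductor and whose height are unrelated (modules `Pool.Agent.V8H24.ZS.Per`,
`Fam`, `NLow`, `Core`); the mean square of the prime sum, which has length `(X² H) ^ (1 - δ)`, is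
bounded uniformly in the coefficients, so that the rotation by `n ^ (- i (T - H))` does no harm
(`Pool.Agent.V8H24.ZS.Ms`, from the large sieve inequality of `Pool.Agent.N880`).
-/

open Complex UpperHalfPlane MatrixGroups CongruenceSubgroup

set_option autoImplicit false

namespace Pool.Agent.Results.MP_553913_nt.ShortIntervals

/-- The coefficient `a_p` of `E : y² = x³ + a x + b` at a prime `p ∤ 2 (4a³ + 27b²)`: `p` minus the
number of pairs `(x, y)` modulo `p` with `y² ≡ x³ + a x + b (mod p)`. -/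
noncomputable def ap (a b : ℤ) (p : ℕ) : ℤ :=
  (p : ℤ) - (((Finset.range p ×ˢ Finset.range p).filter
    (fun xy : ℕ × ℕ => (p : ℤ) ∣ (xy.2 : ℤ) ^ 2 -
      ((xy.1 : ℤ) ^ 3 + a * (xy.1 : ℤ) + b))).card : ℤ)

/-- The `n`-th Fourier coefficient of `f`. -/
noncomputable def coef {N : ℕ} (f : CuspForm (Gamma0 N : Subgroup (GL (Fin 2) ℝ)) 2) (n : ℕ) : ℂ :=
  (qExpansion 1 f).coeff n

/-- `f ∈ S_2(Γ₀(N))` is the newform of the elliptic curve `E : y² = x³ + a x + b`: the Fourier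
coefficients `c(n)` of `f` are real with `c(1) = 1`, they satisfy the Hecke relations
`c(mn) = c(m) c(n)` for coprime `m`, `n` and `c(p^(j+2)) = c(p) c(p^(j+1)) - p c(p^j)` (without the
last term if `p ∣ N`), `f` is an eigenfunction of the Fricke involution:
`f(-1/(Nτ)) = -w N τ² f(τ)` with `w = ±1`, `c(p) = a_p(E)` for all primes `p ∤ 2 (4a³ + 27b²)`,
`|c(p)| ≤ 2 √p` for all primes `p ∤ N` (Hasse) and `c(p) = 0, 1, -1` for the primes `p ∣ N`.
By the modularity theorem such an `f` exists for every `E`, with `N` the conductor. -/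
structure IsFormOf (a b : ℤ) (N : ℕ) (f : CuspForm (Gamma0 N : Subgroup (GL (Fin 2) ℝ)) 2) :
    Prop where
  one : coef f 1 = 1
  real : ∀ n, (coef f n).im = 0
  mul : ∀ m n : ℕ, Nat.Coprime m n → coef f (m * n) = coef f m * coef f n
  pow : ∀ p j : ℕ, p.Prime → coef f (p ^ (j + 2)) = coef f p * coef f (p ^ (j + 1)) -
      (if p ∣ N then 0 else (p : ℂ) * coef f (p ^ j))
  fricke : ∃ w : ℝ, (w = 1 ∨ w = -1) ∧ ∀ τ τ' : ℍ, (τ' : ℂ) * ((N : ℂ) * (τ : ℂ)) = -1 →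
    f τ' = -(w : ℂ) * (N : ℂ) * (τ : ℂ) ^ 2 * f τ
  points : ∀ p : ℕ, p.Prime → ¬ (p : ℤ) ∣ 2 * (4 * a ^ 3 + 27 * b ^ 2) → coef f p = (ap a b p : ℂ)
  good : ∀ p : ℕ, p.Prime → ¬ p ∣ N → ‖coef f p‖ ≤ 2 * Real.sqrt p
  bad : ∀ p : ℕ, p.Prime → p ∣ N → coef f p = 0 ∨ coef f p = 1 ∨ coef f p = -1

/-- The Euler factor of `L(E ⊗ χ, s)` at the prime `p`:
`(1 - χ(p) c(p) p^(-s) + χ(p)² p^(1-2s))⁻¹` for `p ∤ N`, `(1 - χ(p) c(p) p^(-s))⁻¹` for `p ∣ N`. -/
noncomputable def factor {N : ℕ} (f : CuspForm (Gamma0 N : Subgroup (GL (Fin 2) ℝ)) 2) (q : ℕ)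
    (χ : DirichletCharacter ℂ q) (s : ℂ) (p : ℕ) : ℂ :=
  (1 - χ (p : ZMod q) * coef f p * (p : ℂ) ^ (-s) +
    (if p ∣ N then 0 else χ (p : ZMod q) ^ 2 * (p : ℂ) ^ (1 - 2 * s)))⁻¹

/-- The nontrivial zeros of `F` with ordinate in `(T, T + H]`: the zeros with `1/2 < Re s < 3/2` and
`T < Im s ≤ T + H`. -/
def zeros (F : ℂ → ℂ) (T H : ℝ) : Set ℂ :=
  {s : ℂ | 1 / 2 < s.re ∧ s.re < 3 / 2 ∧ T < s.im ∧ s.im ≤ T + H ∧ F s = 0}

/-- The number of these zeros, counted with multiplicity. -/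
noncomputable def N₀ (F : ℂ → ℂ) (T H : ℝ) : ℕ := ∑ᶠ s ∈ zeros F T H, analyticOrderNatAt F s

/-- The number of those of them that are simple and lie on the critical line `Re s = 1`. -/
noncomputable def Ns (F : ℂ → ℂ) (T H : ℝ) : ℕ :=
  {s : ℂ | s ∈ zeros F T H ∧ s.re = 1 ∧ analyticOrderNatAt F s = 1}.ncard

/-- The number of distinct zeros. -/
noncomputable def Nd (F : ℂ → ℂ) (T H : ℝ) : ℕ := (zeros F T H).ncard

/-- The sum of `g q χ / q²` over all primitive Dirichlet characters `χ` of conductor `q` prime to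
`N`, `X < q ≤ Y`. -/
noncomputable def fam (N X Y : ℕ) (g : (q : ℕ) → DirichletCharacter ℂ q → ℕ) : ℝ :=
  ∑ q ∈ (Finset.Ioc X Y).filter (fun q => Nat.Coprime q N), (1 / (q : ℝ) ^ 2) *
    ∑ᶠ χ : {χ : DirichletCharacter ℂ q // χ.IsPrimitive}, (g q χ : ℝ)

/-- The function of Montgomery and Taylor. -/
noncomputable def c (h : ℝ) : ℝ := h / 2 + Real.cot (h / Real.sqrt 2) / Real.sqrt 2

/-! ### Translation from the analytic normalisation -/

theorem order_shift (L : ℂ → ℂ) (s : ℂ) :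
    analyticOrderNatAt (fun z => L (z - 1 / 2)) (s + 1 / 2) = analyticOrderNatAt L s := by
  have hg : AnalyticAt ℂ (fun z : ℂ => z - 1 / 2) (s + 1 / 2) := by fun_prop
  have hd : deriv (fun z : ℂ => z - 1 / 2) (s + 1 / 2) ≠ 0 := by
    simp
  have h := analyticOrderAt_comp_of_deriv_ne_zero (f := L) hg hd
  unfold analyticOrderNatAt
  have h2 : (fun z : ℂ => L (z - 1 / 2)) = L ∘ (fun z : ℂ => z - 1 / 2) := rfl
  rw [h2, h]
  norm_num

theorem mem_shift (L : ℂ → ℂ) (T H : ℝ) (s : ℂ) :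
    s + 1 / 2 ∈ zeros (fun z => L (z - 1 / 2)) T H ↔ s ∈ H370.zset L T (T + H) := by
  have h1 : (s + 1 / 2 : ℂ).re = s.re + 1 / 2 := by simp
  have h2 : (s + 1 / 2 : ℂ).im = s.im := by simp
  have h3 : s + 1 / 2 - 1 / 2 = s := by ring
  constructor
  · rintro ⟨a, b, c, d, e⟩
    rw [h1] at a b
    rw [h2] at c d
    simp only [h3] at e
    exact ⟨by linarith, by linarith, c, d, e⟩
  · rintro ⟨a, b, c, d, e⟩
    refine ⟨by rw [h1]; linarith, by rw [h1]; linarith, by rw [h2]; exact c,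
      by rw [h2]; exact d, ?_⟩
    simp only [h3]
    exact e

theorem zeros_shift (L : ℂ → ℂ) (T H : ℝ) :
    zeros (fun z => L (z - 1 / 2)) T H = (fun s : ℂ => s + 1 / 2) '' H370.zset L T (T + H) := by
  ext s
  constructor
  · intro hs
    refine ⟨s - 1 / 2, ?_, by ring⟩
    rw [← mem_shift]
    convert hs using 1
    ring
  · rintro ⟨t, ht, rfl⟩
    exact (mem_shift L T H t).mpr ht

theorem inj_shift : Function.Injective (fun s : ℂ => s + 1 / 2) := fun a b h => by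
  simpa using h

theorem N_shift (L : ℂ → ℂ) (T H : ℝ) :
    N₀ (fun z => L (z - 1 / 2)) T H = H370.NN L T (T + H) := by
  unfold N₀ H370.NN
  rw [zeros_shift, finsum_mem_image (inj_shift.injOn)]
  refine finsum_congr fun s => finsum_congr fun _ => ?_
  exact order_shift L s

theorem Nd_shift (L : ℂ → ℂ) (T H : ℝ) :
    Nd (fun z => L (z - 1 / 2)) T H = H370.Nd L T (T + H) := by
  unfold Nd H370.Nd
  rw [zeros_shift, Set.ncard_image_of_injective _ inj_shift]

theorem Ns_shift (L : ℂ → ℂ) (T H : ℝ) :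
    Ns (fun z => L (z - 1 / 2)) T H = H370.Ns L T (T + H) := by
  unfold Ns H370.Ns
  rw [← Set.ncard_image_of_injective {s : ℂ | s ∈ H370.zset L T (T + H) ∧ s.re = 1 / 2 ∧
    H370.mult L s = 1} inj_shift]
  congr 1
  ext s
  constructor
  · rintro ⟨h1, h2, h3⟩
    refine ⟨s - 1 / 2, ⟨?_, ?_, ?_⟩, by ring⟩
    · rw [← mem_shift]
      convert h1 using 1
      ring
    · simp [h2]; norm_num
    · unfold H370.mult
      rw [← order_shift]
      convert h3 using 2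
      ring
  · rintro ⟨t, ⟨h1, h2, h3⟩, rfl⟩
    refine ⟨(mem_shift L T H t).mpr h1, ?_, ?_⟩
    · simp [h2]; norm_num
    · rw [order_shift]; exact h3

theorem lamf_eq {N : ℕ} (f : CuspForm (Gamma0 N : Subgroup (GL (Fin 2) ℝ)) 2)
    (hr : ∀ n, (coef f n).im = 0) (p : ℕ) (hp : p.Prime) (s : ℂ) :
    (W388.lamf f p : ℂ) * (p : ℂ) ^ (-(s - 1 / 2)) = coef f p * (p : ℂ) ^ (-s) := by
  have hp0 : (0 : ℝ) < p := by exact_mod_cast hp.pos
  have hpc : (p : ℂ) ≠ 0 := by exact_mod_cast hp.ne_zero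
  have hc : coef f p = ((coef f p).re : ℂ) := by
    apply Complex.ext
    · simp
    · simp [hr p]
  unfold W388.lamf
  rw [hc]
  unfold coef
  rw [show -(s - 1 / 2) = -s + (1 / 2 : ℂ) by ring, Complex.cpow_add _ _ hpc]
  push_cast
  rw [Complex.ofReal_cpow hp0.le]
  have e : ((((2 : ℝ) - 1) / 2 : ℝ) : ℂ) = (1 / 2 : ℂ) := by push_cast; norm_num
  rw [e]
  have hne : (p : ℂ) ^ (1 / 2 : ℂ) ≠ 0 := by
    rw [Ne, Complex.cpow_eq_zero_iff]
    exact fun h => hpc h.1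
  rw [Complex.ofReal_natCast]
  field_simp

theorem factor_shift {N : ℕ} (f : CuspForm (Gamma0 N : Subgroup (GL (Fin 2) ℝ)) 2)
    (hr : ∀ n, (coef f n).im = 0) (q : ℕ)
    (χ : DirichletCharacter ℂ q) (s : ℂ) (p : ℕ) (hp : p.Prime) :
    factor f q χ s p = (1 - χ (p : ZMod q) * (W388.lamf f p : ℂ) * (p : ℂ) ^ (-(s - 1 / 2)) +
      (if p ∣ N then 0 else χ (p : ZMod q) ^ 2 * (p : ℂ) ^ (-2 * (s - 1 / 2))))⁻¹ := by
  unfold factor
  rw [mul_assoc (χ (p : ZMod q)) (W388.lamf f p : ℂ), lamf_eq f hr p hp s, ← mul_assoc,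
    show (-2 * (s - 1 / 2) : ℂ) = 1 - 2 * s by ring]

theorem norm_lamf {N : ℕ} (f : CuspForm (Gamma0 N : Subgroup (GL (Fin 2) ℝ)) 2) (p : ℕ)
    (hp : p.Prime) {B : ℝ} (h : ‖coef f p‖ ≤ B * Real.sqrt p) : |W388.lamf f p| ≤ B := by
  have hp0 : (0 : ℝ) < p := by exact_mod_cast hp.pos
  have e : ((p : ℝ) ^ ((((2 : ℤ) : ℝ) - 1) / 2)) = Real.sqrt p := by
    rw [Real.sqrt_eq_rpow]
    norm_num
  unfold W388.lamf
  rw [e, abs_div, abs_of_pos (Real.sqrt_pos.mpr hp0), div_le_iff₀ (Real.sqrt_pos.mpr hp0)]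
  exact (Complex.abs_re_le_norm _).trans h

/-- **Main theorem.** Let `E : y² = x³ + a x + b` be an elliptic curve over `ℚ` and let
`f ∈ S_2(Γ₀(N))` be its newform.  For every primitive Dirichlet character `χ` of conductor `q` prime
to `N` there is an entire function `L q χ` which for `Re s > 3/2` is the Euler product of
`L(E ⊗ χ, s)`; and for all `0 < h ≤ 1`, `τ ≥ 0` and `ε > 0` there are `K`, `η > 0`, `X₀` such that in
every window `X < q ≤ Y` with `K X ≤ Y ≤ X ^ (1 + η)`, `X ≥ X₀`, and for all `T`, `H` with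
`4 (1 + τ)² (log X)² ≤ H ≤ T ≤ X ^ τ` and `(X T) ^ (2 h) ≤ X² H`, at least the proportion
`2 - c(h) - ε` of the zeros in `1/2 < Re s < 3/2`, `T < Im s ≤ T + H` of these functions (weight
`1/q²`, counted with multiplicity) are simple and lie on the line `Re s = 1`, and the number of
distinct zeros is at least `(3 - c(h) - ε) / 2` times the number of zeros.  The function `c` is
decreasing on `(0, 2]`, and `c(1) ≤ 1.327503`, `c(3/4) ≤ 1.582`, `c(5/9) ≤ 1.985`,
`c(1/2) ≤ 2.1663`.  The last condition on `H` holds for all `H ≥ 1` if `T ≤ X ^ ((1 - h) / h)`; thus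
the intervals may have the length `4 (1 + τ)² (log X)²` with `h = 5/9` for all `T ≤ X ^ (4/5)` and
with `h = 3/4` for all `T ≤ X ^ (1/3)`. -/
theorem result (a b : ℤ) (_hE : 4 * a ^ 3 + 27 * b ^ 2 ≠ 0) (N : ℕ) [NeZero N]
    (f : CuspForm (Gamma0 N : Subgroup (GL (Fin 2) ℝ)) 2) (hf : IsFormOf a b N f) :
    (∃ L : (q : ℕ) → DirichletCharacter ℂ q → ℂ → ℂ,
      (∀ (q : ℕ) (χ : DirichletCharacter ℂ q), 1 ≤ q → Nat.Coprime q N → χ.IsPrimitive →
        Differentiable ℂ (L q χ) ∧ ∀ s : ℂ, 3 / 2 < s.re →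
          HasProd (fun p : Nat.Primes => factor f q χ s p) (L q χ s)) ∧
      ∀ h τ ε : ℝ, 0 < h → h ≤ 1 → 0 ≤ τ → 0 < ε → ∃ K η X0 : ℝ, 1 ≤ K ∧ 0 < η ∧ 1 ≤ X0 ∧
        ∀ (X Y : ℕ) (T H : ℝ), X0 ≤ X → K * X ≤ Y → (Y : ℝ) ≤ (X : ℝ) ^ (1 + η) →
        4 * (1 + τ) ^ 2 * (Real.log X) ^ 2 ≤ H → H ≤ T → T ≤ (X : ℝ) ^ τ →
        ((X : ℝ) * T) ^ (2 * h) ≤ (X : ℝ) ^ 2 * H →
        (2 - c h - ε) * fam N X Y (fun q χ => N₀ (L q χ) T H) ≤
          fam N X Y (fun q χ => Ns (L q χ) T H) ∧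
        (3 - c h - ε) / 2 * fam N X Y (fun q χ => N₀ (L q χ) T H) ≤
          fam N X Y (fun q χ => Nd (L q χ) T H)) ∧
    (∀ x y : ℝ, 0 < x → x ≤ y → y ≤ 2 → c y ≤ c x) ∧
      c 1 ≤ 1.327503 ∧ c (3 / 4) ≤ 1.582 ∧ c (5 / 9) ≤ 1.985 ∧ c (1 / 2) ≤ 2.1663 := by
  refine ⟨?_, fun x y h1 h2 h3 => Pool.Agent.N880.HD.cH_anti h1 h2 h3,
    Pool.Agent.N880.HD.cH_le le_rfl one_le_two, Pool.Agent.N880.HE.cH_34,
    Pool.Agent.N880.HE.cH_59, Pool.Agent.N880.HE.cH_12⟩
  obtain ⟨w, hw, hfr⟩ := hf.fricke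
  have hN0 : (0 : ℝ) ≤ (N : ℝ) := Nat.cast_nonneg N
  have hsq : ((Real.sqrt N : ℝ) : ℂ) ^ 2 = (N : ℂ) := by
    have h1 : (Real.sqrt N) ^ 2 = (N : ℝ) := Real.sq_sqrt hN0
    exact_mod_cast congrArg (fun x : ℝ => (x : ℂ)) h1
  have hf' : W388.IsNewf N 2 f w := by
    refine ⟨hf.one, hf.real, hf.mul, ?_, hw, ?_⟩
    · intro p j hp
      have h1 := hf.pow p j hp
      unfold coef at h1
      rw [h1]
      norm_num
    · intro τ τ' h
      rw [hfr τ τ' h]
      congr 1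
      have hI : Complex.I ^ 2 = -1 := Complex.I_sq
      have : (((Real.sqrt N : ℝ) : ℂ) * (τ : ℂ) / Complex.I) ^ (2 : ℤ) = -((N : ℂ) * (τ : ℂ) ^ 2) := by
        rw [zpow_ofNat, div_pow, mul_pow, hsq, hI]
        ring
      rw [this]
      ring
  have hgood : ∀ p : ℕ, p.Prime → ¬ p ∣ N → |W388.lamf f p| ≤ 2 :=
    fun p hp hpN => norm_lamf f p hp (hf.good p hp hpN)
  have hbad : ∀ p : ℕ, p.Prime → p ∣ N → |W388.lamf f p| ≤ 1 := by
    intro p hp hpN
    refine norm_lamf f p hp ?_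
    have h1 : (1 : ℝ) ≤ Real.sqrt p := by
      rw [Real.one_le_sqrt]
      exact_mod_cast hp.one_le
    have h2 : ‖coef f p‖ ≤ 1 := by
      rcases hf.bad p hp hpN with h | h | h <;> simp [h]
    rw [one_mul]
    exact h2.trans h1
  obtain ⟨L, hL, hmain⟩ := Pool.Agent.V8H24.ZS.short_newf (by norm_num) hf' hgood hbad
  refine ⟨fun q χ s => L q χ (s - 1 / 2), ?_, ?_⟩
  · intro q χ hq hqM hχ
    obtain ⟨h1, h2⟩ := hL q χ hq hqM hχ
    refine ⟨h1.comp (by fun_prop), fun s hs => ?_⟩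
    have h3 := h2 (s - 1 / 2) (by
      have : (s - 1 / 2 : ℂ).re = s.re - 1 / 2 := by simp
      rw [this]; linarith)
    refine (congrArg (fun g => HasProd g (L q χ (s - 1 / 2))) (funext fun p => ?_)).mpr h3
    exact factor_shift f hf.real q χ s p p.2
  · intro h τ ε hh0 hh1 hτ hε
    obtain ⟨K, η, X0, hK, hη, hX0, h0⟩ := hmain h τ ε hh0 hh1 hτ hε
    refine ⟨K, η, X0, hK, hη, hX0, ?_⟩
    intro X Y T H a1 a2 a3 a4 a5 a6 a7
    obtain ⟨b1, b2⟩ := h0 X Y T H a1 a2 a3 a4 a5 a6 a7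
    simp only [N_shift, Ns_shift, Nd_shift]
    exact ⟨b1, b2⟩

end Pool.Agent.Results.MP_553913_nt.ShortIntervals
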