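import Pool.Agent.V8H15.DN.Fam

/-!
# The density of the zeros of `L(E ⊗ χ, s)` off the critical line, in windows of the length of the
mean spacing

`E : y² = x³ + a x + b` is any elliptic curve over `ℚ`, `N` is its conductor and `f ∈ S_2(Γ₀(N))` is
the newform attached to `E` by the modularity theorem (Wiles, Taylor-Wiles,
Breuil-Conrad-Diamond-Taylor).  `χ` runs over all primitive Dirichlet characters of conductor `q ≤ Q`,
`q` prime to `N`; the critical line is `Re s = 1`, and there are at most `Q²` characters.  The number of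
zeros with ordinate in a window `(t, t + V]`, `|t| ≤ T`, at distance at least `δ` from the critical line
is, summed over the family,

`≤ A Q² V log (Q T) (Q T) ^ (-2 c δ)`, for all `δ ≥ 0`,

with no loss of any factor (at `δ = 0` this is the order of magnitude of the number of all the zeros),
for windows which may be as short as the mean spacing `1 / log (Q T)` of the zeros, at any height: for
bounded `T` (or `T ≤ Q ^ η`) the exponent `c` may be any number below `1`, and in general any number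
below `2 h - 1` when `(Q T) ^ (2 h) ≤ Q² max (1, V)`, `h > 1 / 2`.

Proof: a Dirichlet polynomial `D` of length (conductor) `^ (1/2 + ε)` approximates `L(E ⊗ χ)` on a line at
distance `κ / log (Q T)` to the right of the critical line with an error which is controlled, by
Cauchy's theorem and the functional equation, by the function itself on that line; for large `κ` this
closes up in the mean over the family of the mollified function, with the large sieve inequality
(bound for the mollified mean square with no loss; the mollifier is cut off smoothly, and the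
coefficients of `D M` are estimated by writing both cut-offs as Fourier integrals; only the Selberg
orthogonality `∑ Λ(n) |c(n)|² / n ∼ log x`, from the Rankin-Selberg method, is used and no bound for single
coefficients).  The mollified mean square to the left of the critical line follows.  The zeros in a
short window are counted by Jensen's formula for discs in the variable `exp (λ (s - σ))`, `λ` of the order
of `log (Q T)`.

The method of the first part is that of the modules `Pool.Agent.N786.D` (Hecke characters of totally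
real fields, windows of length at least `1`), which we use for the analytic parts; the analytic
continuation, the functional equation and the Selberg orthogonality are from `Pool.Agent.W388.TW`.
-/

open Complex UpperHalfPlane MatrixGroups CongruenceSubgroup

set_option autoImplicit false

namespace Pool.Agent.Results.MP_553913_nt.TwistDensityShortWindows

/-- The coefficient `a_p` of `E : y² = x³ + a x + b` at a prime `p ∤ 2 (4a³ + 27b²)`: `p` minus the
number of pairs `(x, y)` modulo `p` with `y² ≡ x³ + a x + b (mod p)`. -/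
noncomputable def ap (a b : ℤ) (p : ℕ) : ℤ :=
  (p : ℤ) - (((Finset.range p ×ˢ Finset.range p).filter
    (fun xy : ℕ × ℕ => (p : ℤ) ∣ (xy.2 : ℤ) ^ 2 -
      ((xy.1 : ℤ) ^ 3 + a * (xy.1 : ℤ) + b))).card : ℤ)

/-- The `n`-th Fourier coefficient of `f`. -/
noncomputable def coef {N : ℕ} (f : CuspForm (Gamma0 N : Subgroup (GL (Fin 2) ℝ)) 2) (n : ℕ) : ℂ :=
  (qExpansion 1 f).coeff n

/-- `f ∈ S_2(Γ₀(N))` is the newform of the elliptic curve `E : y² = x³ + a x + b`: the Fourier
coefficients `c(n)` of `f` are real with `c(1) = 1`, they satisfy the Hecke relations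
`c(mn) = c(m) c(n)` for coprime `m`, `n` and `c(p^(j+2)) = c(p) c(p^(j+1)) - p c(p^j)` (without the
last term if `p ∣ N`), `f` is an eigenfunction of the Fricke involution:
`f(-1/(Nτ)) = -w N τ² f(τ)` with `w = ±1`, and `c(p) = a_p(E)` for all primes
`p ∤ 2 (4a³ + 27b²)`.  By the modularity theorem such an `f` exists for every `E`, with `N` the
conductor. -/
structure IsFormOf (a b : ℤ) (N : ℕ) (f : CuspForm (Gamma0 N : Subgroup (GL (Fin 2) ℝ)) 2) :
    Prop where
  one : coef f 1 = 1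
  real : ∀ n, (coef f n).im = 0
  mul : ∀ m n : ℕ, Nat.Coprime m n → coef f (m * n) = coef f m * coef f n
  pow : ∀ p j : ℕ, p.Prime → coef f (p ^ (j + 2)) = coef f p * coef f (p ^ (j + 1)) -
      (if p ∣ N then 0 else (p : ℂ) * coef f (p ^ j))
  fricke : ∃ w : ℝ, (w = 1 ∨ w = -1) ∧ ∀ τ τ' : ℍ, (τ' : ℂ) * ((N : ℂ) * (τ : ℂ)) = -1 →
    f τ' = -(w : ℂ) * (N : ℂ) * (τ : ℂ) ^ 2 * f τ
  points : ∀ p : ℕ, p.Prime → ¬ (p : ℤ) ∣ 2 * (4 * a ^ 3 + 27 * b ^ 2) → coef f p = (ap a b p : ℂ)

/-- The Euler factor of `L(E ⊗ χ, s)` at the prime `p`: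
`(1 - χ(p) c(p) p^(-s) + χ(p)² p^(1-2s))⁻¹` for `p ∤ N`, `(1 - χ(p) c(p) p^(-s))⁻¹` for `p ∣ N`. -/
noncomputable def factor {N : ℕ} (f : CuspForm (Gamma0 N : Subgroup (GL (Fin 2) ℝ)) 2) (q : ℕ)
    (χ : DirichletCharacter ℂ q) (s : ℂ) (p : ℕ) : ℂ :=
  (1 - χ (p : ZMod q) * coef f p * (p : ℂ) ^ (-s) +
    (if p ∣ N then 0 else χ (p : ZMod q) ^ 2 * (p : ℂ) ^ (1 - 2 * s)))⁻¹

/-- The nontrivial zeros of `F` at distance at least `δ` from the critical line `Re s = 1` with
ordinate in `(t, t + V]`: the zeros with `1/2 < Re s < 3/2`, `|Re s - 1| ≥ δ` and `t < Im s ≤ t + V`. -/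
def offZeros (F : ℂ → ℂ) (δ t V : ℝ) : Set ℂ :=
  {s : ℂ | 1 / 2 < s.re ∧ s.re < 3 / 2 ∧ δ ≤ |s.re - 1| ∧ t < s.im ∧ s.im ≤ t + V ∧ F s = 0}

/-- The number of these zeros, counted with multiplicity. -/
noncomputable def Noff (F : ℂ → ℂ) (δ t V : ℝ) : ℕ := ∑ᶠ s ∈ offZeros F δ t V, analyticOrderNatAt F s

open Classical in
/-- The sum of `g q χ` over all primitive Dirichlet characters `χ` of conductor `q ≤ Q` prime to
`N`. -/
noncomputable def fam (N Q : ℕ) (g : (q : ℕ) → DirichletCharacter ℂ q → ℕ) : ℝ :=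
  ∑ q ∈ (Finset.Icc 1 Q).filter (fun q => Nat.Coprime q N),
    ∑ χ ∈ (Finset.univ : Finset (DirichletCharacter ℂ q)).filter (fun χ => χ.IsPrimitive),
      (g q χ : ℝ)

/-! ### Translation from the analytic normalisation -/

theorem order_shift (L : ℂ → ℂ) (s : ℂ) :
    analyticOrderNatAt (fun z => L (z - 1 / 2)) (s + 1 / 2) = analyticOrderNatAt L s := by
  have hg : AnalyticAt ℂ (fun z : ℂ => z - 1 / 2) (s + 1 / 2) := by fun_prop
  have hd : deriv (fun z : ℂ => z - 1 / 2) (s + 1 / 2) ≠ 0 := by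
    simp
  have h := analyticOrderAt_comp_of_deriv_ne_zero (f := L) hg hd
  unfold analyticOrderNatAt
  have h2 : (fun z : ℂ => L (z - 1 / 2)) = L ∘ (fun z : ℂ => z - 1 / 2) := rfl
  rw [h2, h]
  norm_num

theorem mem_shift (L : ℂ → ℂ) (δ t V : ℝ) (s : ℂ) :
    s + 1 / 2 ∈ offZeros (fun z => L (z - 1 / 2)) δ t V ↔
      s ∈ Pool.Agent.V8H15.DN.offz L δ t V := by
  have h1 : (s + 1 / 2 : ℂ).re = s.re + 1 / 2 := by simp
  have h2 : (s + 1 / 2 : ℂ).im = s.im := by simp
  have h3 : s + 1 / 2 - 1 / 2 = s := by ring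
  have h4 : s.re + 1 / 2 - 1 = s.re - 1 / 2 := by ring
  unfold offZeros Pool.Agent.V8H15.DN.offz
  rw [Set.mem_setOf_eq, Set.mem_setOf_eq, h1, h2, h4]
  simp only [h3]
  constructor
  · rintro ⟨a, b, c, d, e, g⟩
    exact ⟨by linarith, by linarith, c, d, e, g⟩
  · rintro ⟨a, b, c, d, e, g⟩
    exact ⟨by linarith, by linarith, c, d, e, g⟩

theorem inj_shift : Function.Injective (fun s : ℂ => s + 1 / 2) := fun a b h => by
  simpa using h

theorem Noff_shift (L : ℂ → ℂ) (δ t V : ℝ) :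
    Noff (fun z => L (z - 1 / 2)) δ t V = Pool.Agent.V8H15.DN.Noff L δ t V := by
  have hset : offZeros (fun z => L (z - 1 / 2)) δ t V =
      (fun s : ℂ => s + 1 / 2) '' Pool.Agent.V8H15.DN.offz L δ t V := by
    ext s
    constructor
    · intro hs
      refine ⟨s - 1 / 2, ?_, by ring⟩
      rw [← mem_shift]
      convert hs using 1
      ring
    · rintro ⟨u, hu, rfl⟩
      exact (mem_shift L δ t V u).mpr hu
  unfold Noff Pool.Agent.V8H15.DN.Noff
  rw [hset, finsum_mem_image (inj_shift.injOn)]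
  refine finsum_congr fun s => finsum_congr fun _ => ?_
  exact order_shift L s

theorem lamf_eq {N : ℕ} (f : CuspForm (Gamma0 N : Subgroup (GL (Fin 2) ℝ)) 2)
    (hr : ∀ n, (coef f n).im = 0) (p : ℕ) (hp : p.Prime) (s : ℂ) :
    (W388.lamf f p : ℂ) * (p : ℂ) ^ (-(s - 1 / 2)) = coef f p * (p : ℂ) ^ (-s) := by
  have hp0 : (0 : ℝ) < p := by exact_mod_cast hp.pos
  have hpc : (p : ℂ) ≠ 0 := by exact_mod_cast hp.ne_zero
  have hc : coef f p = ((coef f p).re : ℂ) := by
    apply Complex.ext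
    · simp
    · simp [hr p]
  unfold W388.lamf
  rw [hc]
  unfold coef
  rw [show -(s - 1 / 2) = -s + (1 / 2 : ℂ) by ring, Complex.cpow_add _ _ hpc]
  push_cast
  rw [Complex.ofReal_cpow hp0.le]
  have e : ((((2 : ℝ) - 1) / 2 : ℝ) : ℂ) = (1 / 2 : ℂ) := by push_cast; norm_num
  rw [e]
  have hne : (p : ℂ) ^ (1 / 2 : ℂ) ≠ 0 := by
    rw [Ne, Complex.cpow_eq_zero_iff]
    exact fun h => hpc h.1
  rw [Complex.ofReal_natCast]
  field_simp

theorem factor_shift {N : ℕ} (f : CuspForm (Gamma0 N : Subgroup (GL (Fin 2) ℝ)) 2)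
    (hr : ∀ n, (coef f n).im = 0) (q : ℕ)
    (χ : DirichletCharacter ℂ q) (s : ℂ) (p : ℕ) (hp : p.Prime) :
    factor f q χ s p = (1 - χ (p : ZMod q) * (W388.lamf f p : ℂ) * (p : ℂ) ^ (-(s - 1 / 2)) +
      (if p ∣ N then 0 else χ (p : ZMod q) ^ 2 * (p : ℂ) ^ (-2 * (s - 1 / 2))))⁻¹ := by
  unfold factor
  rw [mul_assoc (χ (p : ZMod q)) (W388.lamf f p : ℂ), lamf_eq f hr p hp s, ← mul_assoc,
    show (-2 * (s - 1 / 2) : ℂ) = 1 - 2 * s by ring]

/-- **Main theorem.** Let `E : y² = x³ + a x + b` be an elliptic curve over `ℚ` and let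
`f ∈ S_2(Γ₀(N))` be its newform.  For every primitive Dirichlet character `χ` of conductor `q` prime
to `N` there is an entire function `L q χ` which for `Re s > 3/2` is the Euler product of
`L(E ⊗ χ, s)`; and for all `1/2 < h ≤ 1` and `0 ≤ c < 2 h - 1` there are `A` and `X₀` such that for all
`Q`, `T ≥ 1` with `Q T ≥ X₀`, all `V ≤ T` with `V log (Q T) ≥ 1` and `(Q T) ^ (2 h) ≤ Q² max (1, V)`, all
`t ∈ [-T, T]` and all `δ ≥ 0` the number of nontrivial zeros with `|Re s - 1| ≥ δ`, `t < Im s ≤ t + V` of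
all the functions `L(E ⊗ χ, s)`, `χ` primitive of conductor `q ≤ Q` prime to `N`, counted with
multiplicity, is at most `A Q² V log (Q T) (Q T) ^ (-2 c δ)`. -/
theorem result (a b : ℤ) (_hE : 4 * a ^ 3 + 27 * b ^ 2 ≠ 0) (N : ℕ) [NeZero N]
    (f : CuspForm (Gamma0 N : Subgroup (GL (Fin 2) ℝ)) 2) (hf : IsFormOf a b N f) :
    ∃ L : (q : ℕ) → DirichletCharacter ℂ q → ℂ → ℂ,
      (∀ (q : ℕ) (χ : DirichletCharacter ℂ q), 1 ≤ q → Nat.Coprime q N → χ.IsPrimitive →
        Differentiable ℂ (L q χ) ∧ ∀ s : ℂ, 3 / 2 < s.re →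
          HasProd (fun p : Nat.Primes => factor f q χ s p) (L q χ s)) ∧
      ∀ h c : ℝ, 1 / 2 < h → h ≤ 1 → 0 ≤ c → c < 2 * h - 1 →
        ∃ A X₀ : ℝ, 0 ≤ A ∧ 2 ≤ X₀ ∧ ∀ (Q : ℕ) (T V : ℝ), 1 ≤ Q → 1 ≤ T → X₀ ≤ Q * T →
          1 ≤ V * Real.log (Q * T) → V ≤ T → (Q * T) ^ (2 * h) ≤ (Q : ℝ) ^ 2 * max 1 V →
          ∀ t : ℝ, |t| ≤ T → ∀ δ : ℝ, 0 ≤ δ →
            fam N Q (fun q χ => Noff (L q χ) δ t V) ≤
              A * ((Q : ℝ) ^ 2 * V * Real.log (Q * T) * (Q * T) ^ (-(2 * c * δ))) := by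
  obtain ⟨w, hw, hfr⟩ := hf.fricke
  have hN0 : (0 : ℝ) ≤ (N : ℝ) := Nat.cast_nonneg N
  have hsq : ((Real.sqrt N : ℝ) : ℂ) ^ 2 = (N : ℂ) := by
    have h1 : (Real.sqrt N) ^ 2 = (N : ℝ) := Real.sq_sqrt hN0
    exact_mod_cast congrArg (fun x : ℝ => (x : ℂ)) h1
  have hf' : W388.IsNewf N 2 f w := by
    refine ⟨hf.one, hf.real, hf.mul, ?_, hw, ?_⟩
    · intro p j hp
      have h1 := hf.pow p j hp
      unfold coef at h1
      rw [h1]
      norm_num
    · intro τ τ' h
      rw [hfr τ τ' h]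
      congr 1
      have hI : Complex.I ^ 2 = -1 := Complex.I_sq
      have : (((Real.sqrt N : ℝ) : ℂ) * (τ : ℂ) / Complex.I) ^ (2 : ℤ) = -((N : ℂ) * (τ : ℂ) ^ 2) := by
        rw [zpow_ofNat, div_pow, mul_pow, hsq, hI]
        ring
      rw [this]
      ring
  obtain ⟨L, hL, h⟩ := Pool.Agent.V8H15.DN.family (by norm_num) hf'
  refine ⟨fun q χ s => L q χ (s - 1 / 2), ?_, ?_⟩
  · intro q χ hq hqM hχ
    obtain ⟨h1, h2⟩ := hL q χ hq hqM hχ
    refine ⟨h1.comp (by fun_prop), fun s hs => ?_⟩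
    have h3 := h2 (s - 1 / 2) (by
      have : (s - 1 / 2 : ℂ).re = s.re - 1 / 2 := by simp
      rw [this]; linarith)
    refine (congrArg (fun g => HasProd g (L q χ (s - 1 / 2))) (funext fun p => ?_)).mpr h3
    exact factor_shift f hf.real q χ s p p.2
  · intro h' c h1 h2 h3 h4
    obtain ⟨A, X₀, hA, hX₀, hmain⟩ := h h' c h1 h2 h3 h4
    refine ⟨A, X₀, hA, hX₀, ?_⟩
    intro Q T V hQ hT hX hV hVT hlen t ht δ hδ
    have hQT : 0 ≤ (Q : ℝ) * T := by positivity
    have e1 : (((Q : ℝ) * T) ^ 2) ^ h' = ((Q : ℝ) * T) ^ (2 * h') := by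
      rw [← Real.rpow_natCast, ← Real.rpow_mul hQT]
      norm_num
    have h5 := hmain Q T V hQ hT hX hV hVT (by rw [e1]; exact hlen) t ht δ hδ
    unfold fam
    simp only [Noff_shift]
    exact h5

end Pool.Agent.Results.MP_553913_nt.TwistDensityShortWindows
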